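import Pool.Agent.H86.BlI

namespace Pool.Agent.Results.MP_566259_an.IndLim
open Pool.Agent.H86.Bl Filter Topology

/-- The composite `A n → A (n + k)` of the connecting maps. -/
def iter {A : ℕ → Type} (φ : ∀ n, A n → A (n + 1)) (n k : ℕ) : A n → A (n + k) :=
  Nat.rec (motive := fun k => A n → A (n + k)) id (fun k f => φ (n + k) ∘ f) k

/-- The connecting maps are contractive lattice homomorphisms. -/
def IsSystem {A : ℕ → Type} [∀ n, BL (A n)] (φ : ∀ n, A n →L[ℝ] A (n + 1)) : Prop :=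
  ∀ n, LatHom (φ n) ∧ ‖φ n‖ ≤ 1

/-- The maps `ψ n : A n → E` exhibit `E` as the inductive limit of `(A n, φ n)`. -/
def IsLimit {A : ℕ → Type} [∀ n, BL (A n)] (φ : ∀ n, A n →L[ℝ] A (n + 1)) {E : Type} [BL E]
    (ψ : ∀ n, A n →L[ℝ] E) : Prop :=
  (∀ n, LatHom (ψ n)) ∧ (∀ n x, ψ (n + 1) (φ n x) = ψ n x) ∧
    (∀ n x, Tendsto (fun k => ‖iter (fun m => φ m) n k x‖) atTop (𝓝 ‖ψ n x‖)) ∧
      Dense (⋃ n, Set.range (ψ n))

theorem result (E : Type) [BL E] [TopologicalSpace.SeparableSpace E] :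
    ∃ (A : ℕ → Type) (_ : ∀ n, BL (A n)) (φ : ∀ n, A n →L[ℝ] A (n + 1)) (ψ : ∀ n, A n →L[ℝ] E),
      (∀ n, Proj.{0} (A n) ∧ SemiProj.{0} (A n)) ∧ IsSystem φ ∧ IsLimit φ ψ := by
  obtain ⟨d, hd⟩ := TopologicalSpace.exists_dense_seq E
  let x : ℕ → E := fun i => (‖d i‖ + 1)⁻¹ • d i
  have hx : ∀ i, ‖x i‖ ≤ 1 := fun i => by
    rw [norm_smul, Real.norm_of_nonneg (by positivity), inv_mul_le_iff₀ (by positivity)]
    linarith
  obtain ⟨t, ht⟩ := exseq
  let c : ℕ → ℕ → ℝ := fun n j => ‖(t j).ev x‖ + 1 / ((n : ℝ) + 1)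
  have hc : ∀ n j, 0 < c n j := fun n j => by positivity
  choose A hA g g1 g2 g3 using fun n => univ (RR' t (c n) n) fun X _ f h => h.1
  have g4 : ∀ n, RR' t (c n) n (A n) (g n) := fun n =>
    ⟨fun i => g3 n (.var i) 1 zero_le_one fun X _ f h => h.1 i,
      fun j hj => g3 n _ _ (hc n j).le fun X _ f h => h.2 j hj⟩
  choose φ f1 f2 f3 using fun n => g2 n (A (n + 1)) (g (n + 1)) ⟨(g4 _).1, fun j hj =>
    ((g4 _).2 j (by omega)).trans (add_le_add le_rfl (one_div_le_one_div_of_le (by positivity)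
      (by push_cast; linarith)))⟩
  choose ψ p1 p2 p3 using fun n => g2 n E x ⟨hx, fun j _ => le_add_of_nonneg_right (by positivity)⟩
  have cm : ∀ n p, ψ (n + 1) (φ n p) = ψ n p := fun n p => congrArg (fun S : A n →L[ℝ] E => S p)
    (hom_ext (g1 n) ((p1 _).comp' (f1 n)) (p1 n) fun a => by
      change ψ _ (φ _ _) = _
      rw [f3, p3, p3])
  have pe : ∀ n (τ : Tm ℕ), ψ n (τ.ev (g n)) = τ.ev x := fun n τ => by
    rw [hom_ev (p1 n), funext (p3 n)]
  have ct : ∀ {Y Z : Type} [BL Y] [BL Z] {S : Y →L[ℝ] Z}, ‖S‖ ≤ 1 → ∀ p, ‖S p‖ ≤ ‖p‖ :=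
    fun h p => (ContinuousLinearMap.le_opNorm _ p).trans (mul_le_of_le_one_left (norm_nonneg _) h)
  refine ⟨A, hA, φ, ψ, fun n => ?_, fun n => ⟨f1 n, f2 n⟩, p1, cm, fun n p => ?_, ?_⟩
  · have := proj_rel (hc n) (g1 n) (g4 n) (g2 n)
    exact ⟨this, this.semi⟩
  · have i1 : ∀ k, ψ (n + k) (iter (fun m => φ m) n k p) = ψ n p := fun k => by
      induction k with
      | zero => rfl
      | succ k ih => exact (cm _ _).trans ih
    have i2 : ∀ (τ : Tm ℕ) k, ‖iter (fun m => φ m) n k p - τ.ev (g (n + k))‖ ≤ ‖p - τ.ev (g n)‖ :=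
      fun τ k => by
      induction k with
      | zero => exact le_rfl
      | succ k ih =>
        refine le_trans (le_of_eq ?_) ((ct (f2 (n + k)) _).trans ih)
        rw [map_sub, hom_ev (f1 _), funext (f3 _)]; rfl
    refine tendsto_order.2 ⟨fun a ha => Eventually.of_forall fun k => ha.trans_le ?_, fun a ha => ?_⟩
    · rw [← i1 k]; exact ct (p2 _) _
    · obtain ⟨ε, hε, he⟩ : ∃ ε : ℝ, 0 < ε ∧ ‖ψ n p‖ + 5 * ε < a := ⟨(a - ‖ψ n p‖) / 6, by linarith,
        by linarith⟩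
      obtain ⟨τ, hτ⟩ := (g1 n).exists_dist_lt p hε
      obtain ⟨j, hj⟩ := ht τ ε hε
      obtain ⟨N, hN⟩ := exists_nat_one_div_lt hε
      refine eventually_atTop.2 ⟨max (j + 1) N, fun k hk => ?_⟩
      have a1 := (g4 (n + k)).2 j (by omega)
      have a2 : 1 / (((n + k : ℕ) : ℝ) + 1) ≤ 1 / ((N : ℝ) + 1) := one_div_le_one_div_of_le
        (by positivity) (by exact_mod_cast (by omega))
      have a3 := ct (p2 n) (p - τ.ev (g n))
      rw [dist_eq_norm] at hτ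
      rw [map_sub, pe] at a3
      have b1 := norm_sub_norm_le (iter (fun m => φ m) n k p) (τ.ev (g (n + k)))
      have b2 := norm_sub_norm_le (τ.ev (g (n + k))) ((t j).ev (g (n + k)))
      have b3 := norm_sub_norm_le ((t j).ev x) (τ.ev x)
      have b4 := norm_sub_norm_le (τ.ev x) (ψ n p)
      rw [norm_sub_rev] at b3 b4
      simp only [c] at a1
      linarith [i2 τ k, hj _ _ (g4 (n + k)).1, hj _ _ hx]
  · refine hd.mono ?_
    rintro _ ⟨i, rfl⟩
    refine Set.mem_iUnion.2 ⟨0, (‖d i‖ + 1) • g 0 i, ?_⟩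
    rw [map_smul, p3, smul_smul, mul_inv_cancel₀ (by positivity), one_smul]

end Pool.Agent.Results.MP_566259_an.IndLim
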